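import Pool.Agent.R545.Stc.Main

/-!
# Spanning tree congestion is `W[1]`-hard when parameterized by treewidth

The definitions used in the statement:
* `treewidth G`, `PathwidthLe G w` (in `Pool.Agent.R545.Stc.TwDefs`): treewidth, and the existence
  of a path decomposition of width at most `w`;
* `stc G`, `stcTwProblem`, `StcTwFpt` (in `Pool.Agent.R545.Stc.Problem`): the spanning tree
  congestion, the decision problem parameterized by treewidth, and the existence of an fpt
  algorithm computing `stc G`;
* `StcLe G t`, `IsKOuterplanar k G`, `matOf G` (in `Pool.Agent.H820R2.SC.Defs`): some spanning tree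
  has congestion at most `t`; `k`-outerplanarity; the adjacency matrix;
* `pClique`, `W1`, `W1Hard`, `FptComputable` (in `Pool.Agent.H557R2.FptDefs`), `FptDecidable` (in
  `Pool.Agent.H557R2.FptDec`): the standard notions of parameterized complexity.
-/

namespace Pool.Agent.Results.MP_1e0b64_lc.TreewidthWOneHard

open Pool.Agent.NPC Pool.Agent.H557R2.Fpt Pool.Agent.H820R2.SC Pool.Agent.R545.Stc

/-- **STC parameterized by treewidth is `W[1]`-hard**: the decision version is; the fpt-reduction
from `p-Clique` produces connected planar graphs whose pathwidth and outerplanarity index are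
bounded in terms of `k`; and an fpt algorithm computing `stc G` with parameter `treewidth G` would
put all of `W[1]` in `FPT`. -/
theorem result : W1Hard stcTwProblem ∧
    (∃ R : List Bool × ℕ → List Bool × ℕ, FptComputable R ∧
      (∀ x k, (R (x, k)).2 ≤ 32 * (k + k * k) + 38) ∧
      ∀ x k, ∃ (n t : ℕ) (G : SimpleGraph (Fin n)), G.Connected ∧
        (∃ j ≤ (R (x, k)).2, IsKOuterplanar j G) ∧ PathwidthLe G (R (x, k)).2 ∧
        (R (x, k)).1 = bits ((matOf G, t) : List (List Bool) × ℕ) ∧
        ((x, k) ∈ pClique ↔ StcLe G t)) ∧
    (StcTwFpt → ∀ L ∈ W1, FptDecidable L) :=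
  ⟨w1Hard_stcTw, exists_fpt_reduction2, tw_fpt_imp⟩

end Pool.Agent.Results.MP_1e0b64_lc.TreewidthWOneHard
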